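import Pool.Agent.helper82.T6.SpecL

set_option autoImplicit false

namespace Pool.Agent.T6

open Finset Pool.Agent.helper3.FT

theorem PAR_crt (hN3 : N3_stmt) {ι : Type} (T : Finset ι) (f : ι → ℕ) (v : V4)
    (hp : ∀ i ∈ T, (f i).Prime) (hinj : ∀ i ∈ T, ∀ j ∈ T, f i = f j → i = j)
    (h : ∀ i ∈ T, ∃ r : ℕ, Nat.Coprime r (f i) ∧ InG (f i) r v) :
    ∃ r : ℕ, Nat.Coprime r (∏ i ∈ T, f i) ∧ InG (∏ i ∈ T, f i) r v := by
  classical
  induction T using Finset.induction_on with
  | empty =>
    refine ⟨0, ?_, ?_⟩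
    · simp
    · unfold InG
      simp
  | insert a T ha ih =>
    obtain ⟨r, h1, h2⟩ := ih (fun i hi => hp i (mem_insert_of_mem hi))
      (fun i hi j hj => hinj i (mem_insert_of_mem hi) j (mem_insert_of_mem hj))
      (fun i hi => h i (mem_insert_of_mem hi))
    obtain ⟨r', h3, h4⟩ := h a (mem_insert_self _ _)
    have hco : Nat.Coprime (f a) (∏ i ∈ T, f i) := by
      apply Nat.Coprime.prod_right
      intro i hi
      rw [Nat.coprime_primes (hp a (mem_insert_self _ _)) (hp i (mem_insert_of_mem hi))]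
      intro h5
      have := hinj a (mem_insert_self _ _) i (mem_insert_of_mem hi) h5
      rw [this] at ha
      exact ha hi
    obtain ⟨k, hk1, hk2⟩ := Nat.chineseRemainder hco r' r
    refine ⟨k, ?_, ?_⟩
    · rw [prod_insert ha]
      apply Nat.Coprime.mul_right
      · have h6 := hk1.gcd_eq
        rw [Nat.coprime_iff_gcd_eq_one] at h3 ⊢
        rw [h6]
        exact h3
      · have h6 := hk2.gcd_eq
        rw [Nat.coprime_iff_gcd_eq_one] at h1 ⊢
        rw [h6]
        exact h1
    · rw [prod_insert ha]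
      exact hN3 _ _ r' r k v hco h4 h2 hk1 hk2

theorem PAR_fact (j d p : ℕ) (_hd : d ≠ 0) :
    (prt j d).factorization p = if Nat.log 2 p < j then d.factorization p else 0 := by
  have h0 : prt j d ≠ 0 := by
    unfold prt
    apply Finset.prod_ne_zero_iff.2
    intro a ha
    exact pow_ne_zero _ (Nat.prime_of_mem_primeFactors (mem_filter.1 ha).1).ne_zero
  unfold prt
  rw [Nat.factorization_prod (by
    intro a ha
    exact pow_ne_zero _ (Nat.prime_of_mem_primeFactors (mem_filter.1 ha).1).ne_zero)]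
  rw [Finsupp.finsetSum_apply]
  have h1 : ∀ a ∈ d.primeFactors.filter (fun p => Nat.log 2 p < j),
      ((a ^ d.factorization a).factorization) p = if a = p then d.factorization p else 0 := by
    intro a ha
    have hap := Nat.prime_of_mem_primeFactors (mem_filter.1 ha).1
    rw [hap.factorization_pow, Finsupp.single_apply]
    split_ifs with h
    · rw [h]
    · rfl
  rw [Finset.sum_congr rfl h1, Finset.sum_ite_eq']
  by_cases hpd : p ∈ d.primeFactors
  · simp [hpd]
  · have : d.factorization p = 0 := by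
      rw [← Finsupp.notMem_support_iff, Nat.support_factorization]
      exact hpd
    simp [this]

theorem PAR_bp (j J d : ℕ) (hd : d ≠ 0) (hJ : J < j) : bp J (prt j d) = bp J d := by
  have h1 : ∀ p, Nat.log 2 p = J → (prt j d).factorization p = d.factorization p := by
    intro p hp
    rw [PAR_fact j d p hd, if_pos (by omega)]
  unfold bp
  have h2 : (prt j d).primeFactors.filter (fun p => Nat.log 2 p = J) =
      d.primeFactors.filter (fun p => Nat.log 2 p = J) := by
    ext p
    simp only [mem_filter]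
    constructor
    · rintro ⟨h3, h4⟩
      refine ⟨?_, h4⟩
      rw [← Nat.support_factorization, Finsupp.mem_support_iff] at h3 ⊢
      rwa [h1 p h4] at h3
    · rintro ⟨h3, h4⟩
      refine ⟨?_, h4⟩
      rw [← Nat.support_factorization, Finsupp.mem_support_iff] at h3 ⊢
      rwa [h1 p h4]
  rw [h2]
  apply prod_congr rfl
  intro p hp
  rw [h1 p (mem_filter.1 hp).2]

/-- a block with prime part consists of one prime -/
theorem PAR_one (J d : ℕ) (hl : (bp J d).Prime) :
    (∀ p, p.Prime → p ∣ d → d ≠ 0 → Nat.log 2 p = J → p = bp J d) ∧ bp J d ∣ d ∧ Nat.log 2 (bp J d) = J ∧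
      (d ≠ 0 → ¬ (bp J d) ^ 2 ∣ d) := by
  have hdvd : ∀ p ∈ d.primeFactors.filter (fun p => Nat.log 2 p = J), p = bp J d := by
    intro p hp
    have hpp := Nat.prime_of_mem_primeFactors (mem_filter.1 hp).1
    have h1 : p ∣ bp J d := by
      have h2 : p ∣ p ^ d.factorization p := by
        apply dvd_pow_self
        have h3 := (mem_filter.1 hp).1
        rw [← Nat.support_factorization, Finsupp.mem_support_iff] at h3
        exact h3
      exact h2.trans (Finset.dvd_prod_of_mem (fun p => p ^ d.factorization p) hp)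
    exact (Nat.prime_dvd_prime_iff_eq hpp hl).1 h1
  have hne : (d.primeFactors.filter (fun p => Nat.log 2 p = J)).Nonempty := by
    by_contra h
    rw [not_nonempty_iff_eq_empty] at h
    have : bp J d = 1 := by
      unfold bp
      rw [h, prod_empty]
    rw [this] at hl
    exact Nat.not_prime_one hl
  obtain ⟨l, hlm⟩ := hne
  have hll := hdvd l hlm
  have hF : d.primeFactors.filter (fun p => Nat.log 2 p = J) = {l} := by
    ext p
    rw [mem_singleton]
    constructor
    · intro hp
      rw [hdvd p hp, hll]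
    · rintro rfl
      exact hlm
  have hbp : bp J d = l ^ d.factorization l := by
    unfold bp
    rw [hF, prod_singleton]
  have hlp := Nat.prime_of_mem_primeFactors (mem_filter.1 hlm).1
  have he : d.factorization l = 1 := by
    have h1 : l ^ d.factorization l = l ^ 1 := by
      rw [← hbp, ← hll, pow_one]
    exact Nat.pow_right_injective hlp.two_le h1
  refine ⟨?_, ?_, ?_, ?_⟩
  · intro p hp hpd hd hJ
    apply hdvd
    rw [mem_filter, Nat.mem_primeFactors]
    exact ⟨⟨hp, hpd, hd⟩, hJ⟩
  · rw [← hll]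
    exact Nat.dvd_of_mem_primeFactors (mem_filter.1 hlm).1
  · rw [← hll]
    exact (mem_filter.1 hlm).2
  · intro hd h
    rw [← hll] at h
    have := (hlp.pow_dvd_iff_le_factorization hd).1 h
    omega

theorem PAR (hN3 : N3_stmt) (_hP5 : P5_stmt) : PAR_stmt := by
  intro y j d r v hy hd hR hr hv hiso
  have hd0 : d ≠ 0 := by omega
  have key : ∀ J ∈ Sg j (prt j d), ∃ p : ℕ, p ∈ pb y J ∧ ¬ p ∣ d ∧ ∃ r : ℕ, Nat.Coprime r p ∧ InG p r v := by
    intro J hJ
    unfold Sg at hJ
    rw [mem_filter, mem_range] at hJ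
    obtain ⟨hJ1, hJ2⟩ := hJ
    rw [PAR_bp j J d hd0 hJ1] at hJ2
    obtain ⟨h1, h2, h3, h4⟩ := PAR_one J d hJ2
    have h5 : ¬ IsoP y v d (bp J d) := by
      intro h
      have := hiso _ h
      omega
    unfold IsoP at h5
    have h6 : ∃ p', PV y v p' ∧ Nat.log 2 p' = Nat.log 2 (bp J d) ∧ p' ≠ bp J d := by
      by_contra h7
      push Not at h7
      exact h5 ⟨hJ2, h2, h4 hd0, h7⟩
    obtain ⟨p, ⟨hp1, hp2, hp3⟩, hp4, hp5⟩ := h6
    rw [h3] at hp4
    refine ⟨p, ?_, ?_, hp3⟩
    · unfold pb
      rw [mem_filter, mem_Ico]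
      refine ⟨⟨?_, ?_⟩, hp1, hp2⟩
      · rw [← hp4]
        exact Nat.pow_log_le_self 2 hp1.ne_zero
      · rw [← hp4]
        exact Nat.lt_pow_succ_log_self (by norm_num) p
    · intro hpd
      exact hp5 (h1 p hp1 hpd hd0 hp4)
  choose f hf1 hf2 hf3 using key
  have hprime : ∀ J (hJ : J ∈ Sg j (prt j d)), (f J hJ).Prime := by
    intro J hJ
    have := hf1 J hJ
    unfold pb at this
    exact (mem_filter.1 this).2.1
  have hlog : ∀ J (hJ : J ∈ Sg j (prt j d)), Nat.log 2 (f J hJ) = J := by
    intro J hJ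
    have := hf1 J hJ
    unfold pb at this
    have h := mem_Ico.1 (mem_filter.1 this).1
    exact Nat.log_eq_of_pow_le_of_lt_pow h.1 h.2
  refine ⟨∏ x ∈ (Sg j (prt j d)).attach, f x.1 x.2, ?_, ?_, ?_⟩
  · unfold QP
    rw [mem_image]
    exact ⟨f, by rw [mem_pi]; exact hf1, rfl⟩
  · apply Nat.Coprime.prod_left
    intro x _
    exact ((hprime x.1 x.2).coprime_iff_not_dvd).2 (hf2 x.1 x.2)
  · apply PAR_crt hN3 (Sg j (prt j d)).attach (fun x => f x.1 x.2) v
    · intro x _
      exact hprime x.1 x.2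
    · rintro ⟨a, ha⟩ _ ⟨b, hb⟩ _ hab
      simp only at hab
      have h1 := hlog a ha
      have h2 := hlog b hb
      rw [hab, h2] at h1
      exact Subtype.ext h1.symm
    · intro x _
      exact hf3 x.1 x.2

end Pool.Agent.T6
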